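import Pool.Agent.Lib.MP_af3a4a_an.P1.CHK.DATA.N12.K0
import Pool.Agent.Lib.MP_af3a4a_an.P1.CHK.DATA.N12.K1

/-! glue for 12 <= N <= 12 (generated) -/

set_option autoImplicit false
set_option maxRecDepth 100000

namespace Pool.Agent.Lib.MP_af3a4a_an.P1.CHK.DATA.N12

open BOX

theorem g0 : ChunkP 12 12 0 1024 0 101 0 2484 := ChunkP.r k0 k1
theorem g1 : ChunkP 12 12 1024 1536 64 80 1632 2484 := ChunkP.R k7 k8
theorem g2 : ChunkP 12 12 1024 1536 64 80 1584 2484 := ChunkP.R k6 g1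
theorem g3 : ChunkP 12 12 1024 1536 64 80 1440 2484 := ChunkP.R k5 g2
theorem g4 : ChunkP 12 12 1024 1536 64 80 1200 2484 := ChunkP.R k4 g3
theorem g5 : ChunkP 12 12 1024 1536 64 80 0 2484 := ChunkP.R k3 g4
theorem g6 : ChunkP 12 12 1024 1536 64 96 0 2484 := ChunkP.g g5 k9
theorem g7 : ChunkP 12 12 1024 1536 64 101 0 2484 := ChunkP.g g6 k10
theorem g8 : ChunkP 12 12 1024 1536 0 101 0 2484 := ChunkP.g k2 g7
theorem g9 : ChunkP 12 12 1536 2048 64 80 1152 2484 := ChunkP.r k16 k17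
theorem g10 : ChunkP 12 12 1536 2048 64 80 1104 2484 := ChunkP.R k15 g9
theorem g11 : ChunkP 12 12 1536 2048 64 80 1056 2484 := ChunkP.R k14 g10
theorem g12 : ChunkP 12 12 1536 2048 64 80 912 2484 := ChunkP.R k13 g11
theorem g13 : ChunkP 12 12 1536 2048 64 80 0 2484 := ChunkP.R k12 g12
theorem g14 : ChunkP 12 12 1536 2048 64 96 0 2484 := ChunkP.g g13 k18
theorem g15 : ChunkP 12 12 1536 2048 64 101 0 2484 := ChunkP.g g14 k19
theorem g16 : ChunkP 12 12 1536 2048 0 101 0 2484 := ChunkP.g k11 g15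
theorem g17 : ChunkP 12 12 1024 2048 0 101 0 2484 := ChunkP.r g8 g16
theorem g18 : ChunkP 12 12 0 2048 0 101 0 2484 := ChunkP.r g0 g17
theorem g19 : ChunkP 12 12 2048 2560 0 101 0 2484 := ChunkP.g k20 k21
theorem g20 : ChunkP 12 12 2560 3072 0 101 0 2484 := ChunkP.g k22 k23
theorem g21 : ChunkP 12 12 2048 3072 0 101 0 2484 := ChunkP.r g19 g20
theorem g22 : ChunkP 12 12 3072 4096 0 101 0 2484 := ChunkP.r k24 k25
theorem g23 : ChunkP 12 12 2048 4096 0 101 0 2484 := ChunkP.r g21 g22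
theorem g24 : ChunkP 12 12 0 4096 0 101 0 2484 := ChunkP.r g18 g23

/-- the whole box -/
theorem allBox : ChunkP 12 12 0 4096 0 101 0 2484 := g24

theorem full {N : ℕ} (hNa : 12 ≤ N) (hNb : N ≤ 12) {z w : Fin N → ℂ} {R : ℝ} {σ : Fin N → ℂ}
    (hC : Pool.Agent.Lib.MP_af3a4a_an.P1.H80.Cfg2 N z w R σ) : ((2484 : ℕ) : ℝ) / 1024 < R := ChunkP.full allBox hNa hNb hC

end Pool.Agent.Lib.MP_af3a4a_an.P1.CHK.DATA.N12
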